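import Pool.Agent.H484.AL.Stm

/-! The one-dimensional count of a linear congruence (S_INTV). -/

set_option autoImplicit false

namespace Pool.Agent.H52.AL.INTV

open Finset

/-- The solutions of a linear congruence with invertible coefficient form one class. -/
theorem cls (a m c : ℕ) (hm : 0 < m) (h : Nat.Coprime a m) :
    ∃ k₀ : ℕ, ∀ k : ℕ, m ∣ a * k + c ↔ k ≡ k₀ [MOD m] := by
  have : NeZero m := ⟨hm.ne'⟩
  have hu : (a : ZMod m) * (a : ZMod m)⁻¹ = 1 := ZMod.coe_mul_inv_eq_one a h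
  refine ⟨(-(c : ZMod m) * (a : ZMod m)⁻¹).val, fun k => ?_⟩
  rw [← ZMod.natCast_eq_zero_iff, ← ZMod.natCast_eq_natCast_iff, ZMod.natCast_zmod_val]
  push_cast
  constructor
  · intro h1
    linear_combination (a : ZMod m)⁻¹ * h1 - (k : ZMod m) * hu
  · intro h1
    rw [h1]
    linear_combination (-(c : ZMod m)) * hu

/-- The number of the solutions in a full period. -/
theorem per (M v n : ℕ) (hM : 1 ≤ M) :
    ((range M).filter (fun b => M ∣ n + v * b)).card = if Nat.gcd v M ∣ n then Nat.gcd v M else 0 := by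
  have hg : 0 < Nat.gcd v M := Nat.gcd_pos_of_pos_right _ hM
  split_ifs with h
  · obtain ⟨v', hv'⟩ := Nat.gcd_dvd_left v M
    obtain ⟨M', hM'⟩ := Nat.gcd_dvd_right v M
    obtain ⟨n', hn'⟩ := h
    have hcop : Nat.Coprime v' M' := by
      have h1 := Nat.coprime_div_gcd_div_gcd (m := v) (n := M) hg
      rwa [show v / Nat.gcd v M = v' from Nat.div_eq_of_eq_mul_right hg hv',
        show M / Nat.gcd v M = M' from Nat.div_eq_of_eq_mul_right hg hM'] at h1
    obtain ⟨g, hgdef⟩ : ∃ g, g = Nat.gcd v M := ⟨_, rfl⟩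
    rw [← hgdef] at hv' hM' hn' hg ⊢
    have hM'0 : 0 < M' := by
      rcases Nat.eq_zero_or_pos M' with h0 | h0
      · rw [h0, mul_zero] at hM'
        omega
      · exact h0
    obtain ⟨b₀, hb₀⟩ := cls v' M' n' hM'0 hcop
    have h1 : (range M).filter (fun b => M ∣ n + v * b) =
        (range M).filter (fun b => b ≡ b₀ [MOD M']) := by
      apply Finset.filter_congr
      intro b _
      rw [← hb₀ b, hM', hn', hv']
      rw [show g * n' + g * v' * b = g * (v' * b + n') by ring]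
      exact Nat.mul_dvd_mul_iff_left hg
    rw [h1, ← Nat.count_eq_card_filter_range, Nat.count_modEq_card M hM'0 b₀, hM',
      Nat.mul_mod_left, Nat.mul_div_cancel _ hM'0]
    simp
  · rw [Finset.card_eq_zero, Finset.filter_eq_empty_iff]
    intro b _ hb
    apply h
    have h1 : Nat.gcd v M ∣ n + v * b := (Nat.gcd_dvd_right v M).trans hb
    have h2 : Nat.gcd v M ∣ v * b := (Nat.gcd_dvd_left v M).mul_right b
    exact (Nat.dvd_add_left h2).1 h1

/-- The number of the members of a class in an interval. -/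
theorem intv (A L h k₀ : ℕ) (hh : 0 < h) :
    h * ((Ioc A (A + L)).filter (fun k => k ≡ k₀ [MOD h])).card ≤ L + h ∧
    L ≤ h * ((Ioc A (A + L)).filter (fun k => k ≡ k₀ [MOD h])).card + h := by
  have h1 := Nat.Ioc_filter_modEq_card A (A + L) hh k₀
  obtain ⟨N, hN⟩ : ∃ N, N = ((Ioc A (A + L)).filter (fun k => k ≡ k₀ [MOD h])).card := ⟨_, rfl⟩
  rw [← hN] at h1 ⊢
  have hhq : (0 : ℚ) < (h : ℚ) := by exact_mod_cast hh
  obtain ⟨x, hx⟩ : ∃ x : ℤ, x = ⌊((A + L : ℕ) - (k₀ : ℚ)) / (h : ℚ)⌋ := ⟨_, rfl⟩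
  obtain ⟨y, hy⟩ : ∃ y : ℤ, y = ⌊((A : ℚ) - (k₀ : ℚ)) / (h : ℚ)⌋ := ⟨_, rfl⟩
  rw [← hx, ← hy] at h1
  have hx1 : (x : ℚ) ≤ ((A + L : ℕ) - (k₀ : ℚ)) / (h : ℚ) := by rw [hx]; exact Int.floor_le _
  have hx2 : ((A + L : ℕ) - (k₀ : ℚ)) / (h : ℚ) < x + 1 := by rw [hx]; exact Int.lt_floor_add_one _
  have hy1 : (y : ℚ) ≤ ((A : ℚ) - (k₀ : ℚ)) / (h : ℚ) := by rw [hy]; exact Int.floor_le _
  have hy2 : ((A : ℚ) - (k₀ : ℚ)) / (h : ℚ) < y + 1 := by rw [hy]; exact Int.lt_floor_add_one _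
  rw [le_div_iff₀ hhq] at hx1 hy1
  rw [div_lt_iff₀ hhq] at hx2 hy2
  push_cast at hx1 hx2
  have hyx : y ≤ x := by
    rw [hx, hy]
    apply Int.floor_le_floor
    apply div_le_div_of_nonneg_right _ hhq.le
    push_cast
    have : (0 : ℚ) ≤ (L : ℚ) := Nat.cast_nonneg L
    linarith
  rw [max_eq_left (by omega)] at h1
  have h2 : (N : ℚ) = (x : ℚ) - (y : ℚ) := by exact_mod_cast h1
  constructor
  · have : (h : ℚ) * (N : ℚ) ≤ L + h := by
      rw [h2]
      nlinarith
    exact_mod_cast this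
  · have : (L : ℚ) ≤ h * N + h := by
      rw [h2]
      nlinarith
    exact_mod_cast this

end Pool.Agent.H52.AL.INTV

namespace Pool.Agent.H484.AL

open scoped Classical

open Finset

theorem t_INTV : S_INTV := by
  intro M v c a0 A L hM hcop hL
  have hg : 0 < Nat.gcd v M := Nat.gcd_pos_of_pos_right _ hM
  have hcop' : Nat.Coprime a0 (Nat.gcd v M) := Nat.Coprime.coprime_dvd_right (Nat.gcd_dvd_right v M) hcop
  obtain ⟨k₀, hk₀⟩ := Pool.Agent.H52.AL.INTV.cls a0 (Nat.gcd v M) c hg hcop'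
  have h1 : (range M).filter (fun b => ∃ k : ℕ, A < k ∧ k ≤ A + L ∧ M ∣ a0 * k + c + v * b) =
      (Ioc A (A + L)).biUnion (fun k => (range M).filter (fun b => M ∣ (a0 * k + c) + v * b)) := by
    ext b
    simp only [Finset.mem_filter, Finset.mem_biUnion, Finset.mem_Ioc]
    constructor
    · rintro ⟨h1, k, h2, h3, h4⟩
      exact ⟨k, ⟨h2, h3⟩, h1, h4⟩
    · rintro ⟨k, ⟨h2, h3⟩, h1, h4⟩
      exact ⟨h1, k, h2, h3, h4⟩
  have h2 : ((range M).filter
      (fun b => ∃ k : ℕ, A < k ∧ k ≤ A + L ∧ M ∣ a0 * k + c + v * b)).card =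
      Nat.gcd v M * ((Ioc A (A + L)).filter (fun k => k ≡ k₀ [MOD (Nat.gcd v M)])).card := by
    rw [h1, Finset.card_biUnion]
    · simp only [Pool.Agent.H52.AL.INTV.per M v _ hM]
      rw [← Finset.sum_filter, Finset.sum_const, smul_eq_mul, mul_comm]
      congr 2
      apply Finset.filter_congr
      intro k _
      exact hk₀ k
    · intro k hk k' hk' hne
      rw [Function.onFun, Finset.disjoint_left]
      intro b hb hb'
      rw [Finset.mem_filter] at hb hb'
      rw [Finset.mem_coe, Finset.mem_Ioc] at hk hk'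
      apply hne
      have e1 : (M : ℤ) ∣ (a0 : ℤ) * k + c + v * b := by exact_mod_cast hb.2
      have e2 : (M : ℤ) ∣ (a0 : ℤ) * k' + c + v * b := by exact_mod_cast hb'.2
      have e3 : (M : ℤ) ∣ (a0 : ℤ) * (k - k') := by
        have := dvd_sub e1 e2
        rwa [show (a0 : ℤ) * k + c + v * b - ((a0 : ℤ) * k' + c + v * b) = (a0 : ℤ) * (k - k') by
          ring] at this
      have e4 : IsCoprime (M : ℤ) (a0 : ℤ) := Nat.isCoprime_iff_coprime.2 hcop.symm
      have e5 : (M : ℤ) ∣ (k : ℤ) - k' := e4.dvd_of_dvd_mul_left e3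
      have e6 := Int.eq_zero_of_abs_lt_dvd e5 (by
        rw [abs_lt]
        constructor
        · omega
        · omega)
      omega
  rw [h2]
  exact Pool.Agent.H52.AL.INTV.intv A L (Nat.gcd v M) k₀ hg

end Pool.Agent.H484.AL
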